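import Pool.Agent.Helper20.Mono.GoalsH
import Pool.Agent.Helper22.Mono.EX1
import Pool.Agent.Helper60.Mono.EX2

/-! # EX7: the triangulated Newton boundary, general case -/

set_option autoImplicit false

namespace Mono.Helper10

open Finset

variable {n : ℕ}

theorem toR_single (i : Fin n) (d : ℤ) :
    toR (Pi.single i d : Fin n → ℤ) = (d : ℝ) • (Pi.single i 1 : Fin n → ℝ) := by
  funext j
  by_cases hj : j = i
  · subst hj; simp
  · simp [Pi.single_eq_of_ne hj]

/-- Integral forms with prescribed values, up to a common factor. -/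
theorem exists_int_functional {F : Finset (Fin n → ℤ)} (hF : Indep F) (hc : F.card = n) :
    ∃ M : ℤ, 0 < M ∧ ∀ t : (Fin n → ℤ) → ℤ, ∃ a : Fin n → ℤ, ∀ u ∈ F, a ⬝ᵥ u = M * t u := by
  classical
  let e : Fin n ≃ F := (F.equivFinOfCardEq hc).symm
  let U : Matrix (Fin n) (Fin n) ℤ := fun i j => (e i : Fin n → ℤ) j
  have hdet : U.det ≠ 0 := by
    intro h0
    have h1 : (U.map (Int.castRingHom ℝ)).det = 0 := by
      rw [← RingHom.mapMatrix_apply, ← RingHom.map_det, h0, map_zero]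
    have h2 : LinearIndependent ℝ (U.map (Int.castRingHom ℝ)).row := by
      have h3 : LinearIndependent ℝ (fun i : Fin n => toR ((e i : F) : Fin n → ℤ)) :=
        hF.comp e e.injective
      exact h3
    rw [Matrix.linearIndependent_rows_iff_isUnit, Matrix.isUnit_iff_isUnit_det, h1] at h2
    simp at h2
  refine ⟨U.det.sign * U.det, ?_, ?_⟩
  · rw [Int.sign_mul_self_eq_natAbs]
    exact_mod_cast Int.natAbs_pos.2 hdet
  · intro t
    let s : Fin n → ℤ := fun i => t (e i : Fin n → ℤ)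
    have hmul : U.mulVec (U.det.sign • (U.adjugate.mulVec s)) = (U.det.sign * U.det) • s := by
      rw [Matrix.mulVec_smul, Matrix.mulVec_mulVec, Matrix.mul_adjugate, Matrix.smul_mulVec,
        Matrix.one_mulVec, smul_smul]
    refine ⟨U.det.sign • (U.adjugate.mulVec s), ?_⟩
    intro u hu
    have h1 := congrFun hmul (e.symm ⟨u, hu⟩)
    have h2 : (U.mulVec (U.det.sign • (U.adjugate.mulVec s))) (e.symm ⟨u, hu⟩) =
        (U.det.sign • (U.adjugate.mulVec s)) ⬝ᵥ u := by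
      rw [dotProduct_comm]
      simp only [Matrix.mulVec, U, Equiv.apply_symm_apply]
    rw [← h2, h1]
    simp [s]

theorem dotR (x y : Fin n → ℤ) : toR x ⬝ᵥ toR y = ((x ⬝ᵥ y : ℤ) : ℝ) := by
  simp [dotProduct]

open Classical in
/-- The basis vectors of height zero. -/
noncomputable def ZZ (A : Finset (Fin n → ℤ)) : Finset (Fin n → ℤ) :=
  (univ.filter fun i : Fin n => ∀ d : ℤ, 0 < d → (Pi.single i d : Fin n → ℤ) ∉ A).image
    fun i => Pi.single i 1

open Classical in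
theorem mem_ZZ {A : Finset (Fin n → ℤ)} {u : Fin n → ℤ} : u ∈ ZZ A ↔
    ∃ i : Fin n, (∀ d : ℤ, 0 < d → (Pi.single i d : Fin n → ℤ) ∉ A) ∧ Pi.single i 1 = u := by
  unfold ZZ
  simp

theorem disj_ZZ (A : Finset (Fin n → ℤ)) : Disjoint A (ZZ A) := by
  classical
  rw [Finset.disjoint_left]
  intro u hu hz
  obtain ⟨i, hi, rfl⟩ := mem_ZZ.1 hz
  exact hi 1 one_pos hu

theorem genOrthant {A : Finset (Fin n → ℤ)} (h0 : ∀ v ∈ A, ∀ i, 0 ≤ v i)
    (hz : (0 : Fin n → ℤ) ∉ A) : GenOrthant (A ∪ ZZ A) := by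
  classical
  refine ⟨?_, ?_, ?_⟩
  · intro r hr i
    rcases Finset.mem_union.1 hr with h | h
    · exact h0 r h i
    · obtain ⟨j, _, rfl⟩ := mem_ZZ.1 h
      by_cases hij : i = j
      · subst hij; simp
      · simp [Pi.single_eq_of_ne hij]
  · intro h
    rcases Finset.mem_union.1 h with h | h
    · exact hz h
    · obtain ⟨j, _, hj⟩ := mem_ZZ.1 h
      have := congrFun hj j
      simp at this
  · intro i
    by_cases h : ∀ d : ℤ, 0 < d → (Pi.single i d : Fin n → ℤ) ∉ A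
    · exact ⟨Pi.single i 1, Finset.mem_union_right _ (mem_ZZ.2 ⟨i, h, rfl⟩), 1, one_pos, rfl⟩
    · push Not at h
      obtain ⟨d, hd, hdA⟩ := h
      exact ⟨_, Finset.mem_union_left _ hdA, d, hd, rfl⟩

theorem main (A : Finset (Fin n → ℤ)) (hne : A.Nonempty)
    (h0 : ∀ v ∈ A, ∀ i, 0 ≤ v i) (hz : (0 : Fin n → ℤ) ∉ A) :
    ∃ (Φ : Fan n) (Z : Finset (Fin n → ℤ)), Tri A Z Φ ∧ Φ.Coherent := by
  classical
  set Z := ZZ A with hZ
  have hdis : Disjoint A Z := disj_ZZ A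
  have hgen : GenOrthant (A ∪ Z) := genOrthant h0 hz
  obtain ⟨g, hg1, hg2⟩ := genericHeights n (A ∪ Z) (fun u => if u ∈ Z then 0 else 1)
    (fun u => if u ∈ Z then 1 else 0)
  obtain ⟨Φ, hv, hco, hmx⟩ := fanOfGeneric n (A ∪ Z) g hgen hg1
  have hFR : ∀ F ∈ Φ.mx, F ⊆ A ∪ Z := fun F hF => hv ▸ Φ.mx_sub F hF
  have hpsi : ∀ (F : Finset (Fin n → ℤ)) (x : Fin n → ℝ),
      ∑ u ∈ F, crd F x u * (if u ∈ Z then (0 : ℝ) else 1) = psi Z F x := by
    intro F x
    unfold psi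
    rw [Finset.sdiff_eq_filter, Finset.sum_filter]
    refine Finset.sum_congr rfl fun u _ => ?_
    by_cases h : u ∈ Z <;> simp [h]
  have hA1 : ∀ F ∈ Φ.mx, ∀ v ∈ A, 1 ≤ psi Z F (toR v) := by
    intro F hF v hvA
    have h3 := (hg2 F (hFR F hF) (Φ.mx_card F hF) (Φ.mx_indep F hF) v
      (Finset.mem_union_left _ hvA) (hmx F hF v (Finset.mem_union_left _ hvA))).1
    rw [hpsi, if_neg (Finset.disjoint_left.1 hdis hvA)] at h3
    exact h3
  have hZ0 : ∀ F ∈ Φ.mx, ∀ v ∈ Z, 0 ≤ psi Z F (toR v) := by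
    intro F hF v hvA
    have h3 := (hg2 F (hFR F hF) (Φ.mx_card F hF) (Φ.mx_indep F hF) v
      (Finset.mem_union_right _ hvA) (hmx F hF v (Finset.mem_union_right _ hvA))).1
    rw [hpsi, if_pos hvA] at h3
    exact h3
  have hsingle : ∀ F ∈ Φ.mx, ∀ i : Fin n, 0 < psi Z F (Pi.single i 1) ∨
      (0 ≤ psi Z F (Pi.single i 1) ∧ (Pi.single i 1 : Fin n → ℤ) ∈ Z) := by
    intro F hF i
    by_cases h : ∀ d : ℤ, 0 < d → (Pi.single i d : Fin n → ℤ) ∉ A
    · right
      have h1 : (Pi.single i 1 : Fin n → ℤ) ∈ Z := mem_ZZ.2 ⟨i, h, rfl⟩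
      have h2 := hZ0 F hF _ h1
      rw [toR_single, Int.cast_one, one_smul] at h2
      exact ⟨h2, h1⟩
    · left
      push Not at h
      obtain ⟨d, hd, hdA⟩ := h
      have h2 := hA1 F hF _ hdA
      rw [toR_single, psi_smul Z (Φ.mx_indep F hF) (Φ.mx_card F hF)] at h2
      have hd' : (0 : ℝ) < d := by exact_mod_cast hd
      by_contra hneg
      push Not at hneg
      have : (d : ℝ) * psi Z F (Pi.single i 1) ≤ 0 :=
        mul_nonpos_of_nonneg_of_nonpos hd'.le hneg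
      linarith
  have hNewton : Φ.Newton Z := by
    refine ⟨?_, ?_, ?_⟩
    · rw [hv]
      exact Finset.subset_union_right
    · intro z hz
      obtain ⟨i, _, rfl⟩ := mem_ZZ.1 hz
      exact ⟨i, rfl⟩
    · intro F hF
      refine ⟨?_, ?_⟩
      · intro u hu
        rw [hv, Finset.mem_sdiff, Finset.mem_union] at hu
        exact hA1 F hF u (hu.1.resolve_right hu.2)
      · intro i
        rcases hsingle F hF i with h | h
        · exact h.le
        · exact h.1
  refine ⟨Φ, Z, ⟨hne, h0, hz, hdis, hv, hNewton, ?_⟩, hco⟩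
  intro F hF
  have hFc := Φ.mx_card F hF
  have hFi := Φ.mx_indep F hF
  obtain ⟨M, hM, hfun⟩ := exists_int_functional hFi hFc
  obtain ⟨k1, hk1⟩ := hfun (fun u => if u ∈ Z then 0 else 1)
  obtain ⟨k2, hk2⟩ := hfun (fun u => if u ∈ Z then 1 else 0)
  have hMR : (0 : ℝ) < M := by exact_mod_cast hM
  have e1 : ∀ x : Fin n → ℝ, toR k1 ⬝ᵥ x = M * psi Z F x := by
    intro x
    rw [dot_eq_sum_crd hFi hFc, ← hpsi, mul_sum]
    refine sum_congr rfl fun u hu => ?_
    rw [dotR, hk1 u hu]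
    push_cast
    ring
  have e2 : ∀ x : Fin n → ℝ, toR k2 ⬝ᵥ x =
      M * ∑ u ∈ F, crd F x u * (if u ∈ Z then (1 : ℝ) else 0) := by
    intro x
    rw [dot_eq_sum_crd hFi hFc, mul_sum]
    refine sum_congr rfl fun u hu => ?_
    rw [dotR, hk2 u hu]
    push_cast
    ring
  -- the key facts on integers
  have f1 : ∀ v ∈ A, M ≤ k1 ⬝ᵥ v := by
    intro v hvA
    have h1 : ((k1 ⬝ᵥ v : ℤ) : ℝ) = M * psi Z F (toR v) := by rw [← dotR, e1]
    have h2 : (M : ℝ) ≤ ((k1 ⬝ᵥ v : ℤ) : ℝ) := by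
      rw [h1]
      exact le_mul_of_one_le_right hMR.le (hA1 F hF v hvA)
    exact_mod_cast h2
  have f2 : ∀ v ∈ A, k1 ⬝ᵥ v = M → 0 ≤ k2 ⬝ᵥ v := by
    intro v hvA hMv
    have h1 : ((k1 ⬝ᵥ v : ℤ) : ℝ) = M * psi Z F (toR v) := by rw [← dotR, e1]
    rw [hMv] at h1
    have h2 : psi Z F (toR v) = 1 := by
      have h3 : (M : ℝ) * (psi Z F (toR v) - 1) = 0 := by linarith
      rcases mul_eq_zero.1 h3 with h | h
      · exact absurd h hMR.ne'
      · linarith
    have h4 := (hg2 F (hFR F hF) hFc hFi v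
      (Finset.mem_union_left _ hvA) (hmx F hF v (Finset.mem_union_left _ hvA))).2
    rw [hpsi, if_neg (Finset.disjoint_left.1 hdis hvA), h2] at h4
    have h5 := h4 rfl
    have h6 : (0 : ℝ) ≤ ((k2 ⬝ᵥ v : ℤ) : ℝ) := by
      rw [← dotR, e2]
      have h7 : (if v ∈ Z then (1 : ℝ) else 0) = 0 :=
        if_neg (Finset.disjoint_left.1 hdis hvA)
      simp only [h7] at h5
      exact mul_nonneg hMR.le h5
    exact_mod_cast h6
  have hdoti : ∀ (k : Fin n → ℤ) (i : Fin n),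
      toR k ⬝ᵥ (Pi.single i 1 : Fin n → ℝ) = (k i : ℝ) := by
    intro k i
    simp
  have f3 : ∀ i, 1 ≤ k1 i ∨ (k1 i = 0 ∧ 1 ≤ k2 i) := by
    intro i
    have h1 := e1 (Pi.single i 1)
    rw [hdoti] at h1
    rcases hsingle F hF i with h | ⟨h, hZi⟩
    · left
      have h2 : (0 : ℝ) < k1 i := by
        rw [h1]
        exact mul_pos hMR h
      have h3 : 0 < k1 i := by exact_mod_cast h2
      omega
    · rcases h.lt_or_eq with h' | h'
      · left
        have h2 : (0 : ℝ) < k1 i := by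
          rw [h1]
          exact mul_pos hMR h'
        have h3 : 0 < k1 i := by exact_mod_cast h2
        omega
      · right
        refine ⟨?_, ?_⟩
        · rw [← h', mul_zero] at h1
          exact_mod_cast h1
        · have h4 := (hg2 F (hFR F hF) hFc hFi _
            (Finset.mem_union_right _ hZi) (hmx F hF _ (Finset.mem_union_right _ hZi))).2
          have h8 : toR (Pi.single i 1 : Fin n → ℤ) = (Pi.single i 1 : Fin n → ℝ) := by
            rw [toR_single]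
            simp
          rw [hpsi, h8] at h4
          simp only [if_pos hZi] at h4
          have h5 := h4 h'
          have h6 : (0 : ℝ) < k2 i := by
            rw [← hdoti k2 i, e2]
            exact mul_pos hMR (by linarith)
          have h7 : 0 < k2 i := by exact_mod_cast h6
          omega
  -- the integer N
  set N : ℤ := 1 + ∑ i, |k2 i| + ∑ v ∈ A, |k2 ⬝ᵥ v| with hN
  have hs1 : ∀ i, |k2 i| ≤ ∑ i, |k2 i| := fun i =>
    Finset.single_le_sum (f := fun i => |k2 i|) (fun _ _ => abs_nonneg _) (Finset.mem_univ i)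
  have hs2 : ∀ v ∈ A, |k2 ⬝ᵥ v| ≤ ∑ v ∈ A, |k2 ⬝ᵥ v| := fun v hv =>
    Finset.single_le_sum (f := fun v => |k2 ⬝ᵥ v|) (fun _ _ => abs_nonneg _) hv
  have hs3 : (0 : ℤ) ≤ ∑ i, |k2 i| := Finset.sum_nonneg fun _ _ => abs_nonneg _
  have hs4 : (0 : ℤ) ≤ ∑ v ∈ A, |k2 ⬝ᵥ v| := Finset.sum_nonneg fun _ _ => abs_nonneg _
  have hdota : ∀ v : Fin n → ℤ, (N • k1 + k2) ⬝ᵥ v = N * (k1 ⬝ᵥ v) + k2 ⬝ᵥ v := by
    intro v
    rw [add_dotProduct, smul_dotProduct, smul_eq_mul]
  have hge : ∀ v ∈ A, N * M ≤ (N • k1 + k2) ⬝ᵥ v := by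
    intro v hvA
    rw [hdota]
    rcases (f1 v hvA).lt_or_eq with h | h
    · have h1 := hs2 v hvA
      have h2 := neg_abs_le (k2 ⬝ᵥ v)
      have h3 : N * (M + 1) ≤ N * (k1 ⬝ᵥ v) := by
        apply mul_le_mul_of_nonneg_left (by omega) (by omega)
      nlinarith
    · have h1 := f2 v hvA h.symm
      rw [← h]
      omega
  refine ⟨N • k1 + k2, ?_, ?_⟩
  · intro i
    have h1 := hs1 i
    have h2 := neg_abs_le (k2 i)
    simp only [Pi.add_apply, Pi.smul_apply, smul_eq_mul]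
    rcases f3 i with h | ⟨h, h'⟩
    · have h3 : N * 1 ≤ N * k1 i := mul_le_mul_of_nonneg_left h (by omega)
      omega
    · rw [h]
      omega
  · intro u hu
    obtain ⟨huF, huZ⟩ := Finset.mem_sdiff.1 hu
    have huA : u ∈ A := (Finset.mem_union.1 (hFR F hF huF)).resolve_right huZ
    have hval : (N • k1 + k2) ⬝ᵥ u = N * M := by
      rw [hdota, hk1 u huF, hk2 u huF, if_neg huZ, if_neg huZ]
      ring
    rw [hval]
    unfold NA
    apply le_antisymm
    · refine le_csInf ⟨_, u, huA, rfl⟩ ?_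
      rintro z ⟨v, hvA, rfl⟩
      exact hge v hvA
    · refine csInf_le ⟨N * M, ?_⟩ ⟨u, huA, hval.symm⟩
      rintro z ⟨v, hvA, rfl⟩
      exact hge v hvA

end Mono.Helper10

namespace Mono

theorem newtonFan : NewtonFan := fun _ A hne h0 hz => Helper10.main A hne h0 hz

end Mono
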